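import Mathlib
import Pool.Agent.W192.HK.Parts

/-!
# Project HK: arithmetic of `R`
-/

set_option autoImplicit false

namespace Pool.Agent.W287.HK

open Pool.Agent.W192.HK

section

variable {R : Subring ℂ} {ω : ℂ}

theorem om_mem (h : QR R ω) : ω ∈ R := (h.mem ω).2 ⟨0, 1, by simp⟩

theorem mul_rel (h : QR R ω) :
    ∃ s t : ℤ, ω * ω = t + s * ω ∧ (starRingEnd ℂ) ω = s - ω := by
  obtain ⟨t, s, hts⟩ := (h.mem (ω * ω)).1 (R.mul_mem (om_mem h) (om_mem h))
  refine ⟨s, t, hts, ?_⟩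
  have him := congrArg Complex.im hts
  simp only [Complex.mul_im, Complex.add_im, Complex.intCast_im, Complex.intCast_re, zero_mul,
    add_zero, zero_add] at him
  have h2 : 2 * ω.re = s := by
    apply mul_right_cancel₀ h.im.ne'
    linarith
  apply Complex.ext
  · simp only [Complex.conj_re, Complex.sub_re, Complex.intCast_re]
    linarith
  · simp

theorem normSq_eq {s t : ℤ} (h1 : ω * ω = t + s * ω) (h2 : (starRingEnd ℂ) ω = s - ω) (x y : ℤ) :
    Complex.normSq (x + y * ω) = ((x ^ 2 + s * x * y - t * y ^ 2 : ℤ) : ℝ) := by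
  have h3 : ((Complex.normSq (x + y * ω) : ℝ) : ℂ) = ((x ^ 2 + s * x * y - t * y ^ 2 : ℤ) : ℂ) := by
    rw [← Complex.mul_conj, map_add, map_mul, h2]
    simp only [map_intCast]
    push_cast
    linear_combination (-(y : ℂ) ^ 2) * h1
  exact_mod_cast h3

theorem exists_nat (h : QR R ω) (α : R) : ∃ n : ℕ, Complex.normSq (α : ℂ) = n := by
  obtain ⟨s, t, h1, h2⟩ := mul_rel h
  obtain ⟨x, y, hxy⟩ := (h.mem (α : ℂ)).1 α.2
  have h3 := normSq_eq h1 h2 x y
  rw [← hxy] at h3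
  have h4 : (0 : ℤ) ≤ x ^ 2 + s * x * y - t * y ^ 2 := by
    have := Complex.normSq_nonneg (α : ℂ)
    rw [h3] at this
    exact_mod_cast this
  refine ⟨(x ^ 2 + s * x * y - t * y ^ 2).toNat, ?_⟩
  rw [h3]
  have h5 := Int.toNat_of_nonneg h4
  exact_mod_cast h5.symm

theorem conj_mem (h : QR R ω) (α : R) : (starRingEnd ℂ) (α : ℂ) ∈ R := by
  obtain ⟨s, t, h1, h2⟩ := mul_rel h
  obtain ⟨x, y, hxy⟩ := (h.mem (α : ℂ)).1 α.2
  refine (h.mem _).2 ⟨x + y * s, -y, ?_⟩
  rw [hxy, map_add, map_mul, h2]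
  simp only [map_intCast]
  push_cast
  ring

theorem unit_iff (h : QR R ω) (α : R) : IsUnit α ↔ Complex.normSq (α : ℂ) = 1 := by
  constructor
  · intro hu
    obtain ⟨β, hβ⟩ := hu.exists_right_inv
    obtain ⟨a, ha⟩ := exists_nat h α
    obtain ⟨b, hb⟩ := exists_nat h β
    have h1 : (α : ℂ) * (β : ℂ) = 1 := congrArg Subtype.val hβ
    have h2 : Complex.normSq (α : ℂ) * Complex.normSq (β : ℂ) = 1 := by
      rw [← map_mul, h1, map_one]
    rw [ha, hb] at h2
    have h3 : a * b = 1 := by exact_mod_cast h2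
    rw [ha, Nat.eq_one_of_mul_eq_one_right h3, Nat.cast_one]
  · intro h1
    refine IsUnit.of_mul_eq_one ⟨(starRingEnd ℂ) (α : ℂ), conj_mem h α⟩ (Subtype.ext ?_)
    show (α : ℂ) * (starRingEnd ℂ) (α : ℂ) = 1
    rw [Complex.mul_conj, h1, Complex.ofReal_one]

theorem fin_units (h : QR R ω) : Finite Rˣ := by
  choose x y hxy using fun u : Rˣ => (h.mem ((u : R) : ℂ)).1 (u : R).2
  obtain ⟨B, hB⟩ := exists_nat_ge (max (1 / ω.im) (1 + 1 / ω.im * |ω.re|))
  have hB1 : 1 / ω.im ≤ B := (le_max_left _ _).trans hB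
  have hB2 : 1 + 1 / ω.im * |ω.re| ≤ B := (le_max_right _ _).trans hB
  have hbd : ∀ u : Rˣ, |((y u : ℤ) : ℝ)| ≤ 1 / ω.im ∧ |((x u : ℤ) : ℝ)| ≤ B := by
    intro u
    have h1 := (unit_iff h (u : R)).1 u.isUnit
    rw [hxy u, Complex.normSq_apply] at h1
    simp only [Complex.add_re, Complex.add_im, Complex.mul_re, Complex.mul_im, Complex.intCast_re,
      Complex.intCast_im, zero_mul, sub_zero, add_zero, zero_add] at h1
    have h2 : ((y u : ℤ) : ℝ) ^ 2 * ω.im ^ 2 ≤ 1 := by nlinarith [sq_nonneg ((x u : ℝ) + y u * ω.re)]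
    have h3 : ((x u : ℝ) + y u * ω.re) ^ 2 ≤ 1 := by nlinarith [sq_nonneg ((y u : ℝ) * ω.im)]
    have h4 : |((y u : ℤ) : ℝ)| ≤ 1 / ω.im := by
      rw [le_div_iff₀ h.im, ← abs_of_pos h.im, ← abs_mul]
      exact abs_le_one_iff_mul_self_le_one.2 (by nlinarith)
    refine ⟨h4, ?_⟩
    have h5 : |(x u : ℝ) + y u * ω.re| ≤ 1 := abs_le_one_iff_mul_self_le_one.2 (by nlinarith)
    have h6 : |((x u : ℤ) : ℝ)| ≤ |(x u : ℝ) + y u * ω.re| + |(y u : ℝ) * ω.re| := by
      have := abs_sub ((x u : ℝ) + y u * ω.re) ((y u : ℝ) * ω.re)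
      rwa [add_sub_cancel_right] at this
    have h7 : |(y u : ℝ) * ω.re| ≤ 1 / ω.im * |ω.re| := by
      rw [abs_mul]
      exact mul_le_mul_of_nonneg_right h4 (abs_nonneg _)
    linarith
  have hmem : ∀ u : Rˣ, x u ∈ Set.Icc (-(B : ℤ)) B ∧ y u ∈ Set.Icc (-(B : ℤ)) B := by
    intro u
    obtain ⟨h1, h2⟩ := hbd u
    have h3 := abs_le.1 (h1.trans hB1)
    have h4 := abs_le.1 h2
    refine ⟨⟨?_, ?_⟩, ⟨?_, ?_⟩⟩
    · exact_mod_cast h4.1
    · exact_mod_cast h4.2
    · exact_mod_cast h3.1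
    · exact_mod_cast h3.2
  have : Finite (Set.Icc (-(B : ℤ)) B) := (Set.finite_Icc _ _).to_subtype
  refine Finite.of_injective (fun u : Rˣ => ((⟨x u, (hmem u).1⟩, ⟨y u, (hmem u).2⟩) :
    Set.Icc (-(B : ℤ)) B × Set.Icc (-(B : ℤ)) B)) ?_
  intro u v huv
  have h1 := congrArg (fun p => (p.1 : ℤ)) huv
  have h2 := congrArg (fun p => (p.2 : ℤ)) huv
  simp only at h1 h2
  apply Units.ext
  apply Subtype.ext
  rw [hxy u, hxy v, h1, h2]

theorem basics (h : QR R ω) : ∃ (_ : IsDedekindDomain R) (_ : Module.Free ℤ R) (_ : Module.Finite ℤ R),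
    (∀ I : Ideal R, nm I = (Ideal.absNorm I : ℝ)) ∧
    ∀ κ : R, nm (sp κ) = Complex.normSq (κ : ℂ) := by
  obtain ⟨s, t, h1, h2⟩ := mul_rel h
  let w : R := ⟨ω, om_mem h⟩
  have hw : w * w = t • (1 : R) + s • w := by
    apply Subtype.ext
    show ω * ω = ((t • (1 : R) + s • w : R) : ℂ)
    rw [h1]
    simp [w]
  have hli : LinearIndependent ℤ ![(1 : R), w] := by
    rw [LinearIndependent.pair_iff]
    intro a b hab
    have h3 : ((a • (1 : R) + b • w : R) : ℂ) = 0 := by rw [hab]; rfl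
    have h4 : (a : ℂ) + b * ω = 0 := by
      rw [← h3]
      simp [w]
    have h5 := congrArg Complex.im h4
    have h6 := congrArg Complex.re h4
    simp only [Complex.add_re, Complex.add_im, Complex.mul_re, Complex.mul_im, Complex.intCast_re,
      Complex.intCast_im, zero_mul, sub_zero, add_zero, zero_add, Complex.zero_im,
      Complex.zero_re] at h5 h6
    have h7 : (b : ℝ) = 0 := by
      rcases mul_eq_zero.1 h5 with h | h'
      · exact h
      · exact absurd h' h.im.ne'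
    rw [h7, zero_mul, add_zero] at h6
    exact ⟨by exact_mod_cast h6, by exact_mod_cast h7⟩
  have hdec : ∀ α : R, ∃ x y : ℤ, α = x • (1 : R) + y • w ∧
      Complex.normSq (α : ℂ) = ((x ^ 2 + s * x * y - t * y ^ 2 : ℤ) : ℝ) := by
    intro α
    obtain ⟨x, y, hxy⟩ := (h.mem (α : ℂ)).1 α.2
    refine ⟨x, y, Subtype.ext ?_, ?_⟩
    · rw [hxy]
      simp [w]
    · rw [hxy]
      exact normSq_eq h1 h2 x y
  have hsp : ⊤ ≤ Submodule.span ℤ (Set.range ![(1 : R), w]) := by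
    rintro α -
    obtain ⟨x, y, hxy, -⟩ := hdec α
    rw [hxy]
    exact add_mem (Submodule.smul_mem _ _ (Submodule.subset_span ⟨0, rfl⟩))
      (Submodule.smul_mem _ _ (Submodule.subset_span ⟨1, rfl⟩))
  let b := Module.Basis.mk hli hsp
  have hb0 : b 0 = 1 := by simp [b]
  have hb1 : b 1 = w := by simp [b]
  have i1 : IsDedekindDomain R := h.ded
  have i2 : Module.Free ℤ R := Module.Free.of_basis b
  have i3 : Module.Finite ℤ R := Module.Finite.of_basis b
  refine ⟨i1, i2, i3, ?_, ?_⟩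
  · intro I
    rw [Ideal.absNorm_apply, Submodule.cardQuot_apply]
    rfl
  intro κ
  obtain ⟨x, y, hxy, hn⟩ := hdec κ
  have hrep : ∀ (a c : ℤ), b.repr (a • (1 : R) + c • w) 0 = a ∧
      b.repr (a • (1 : R) + c • w) 1 = c := by
    intro a c
    rw [← hb0, ← hb1, map_add, map_smul, map_smul, b.repr_self, b.repr_self]
    simp
  have hκw : κ * w = (y * t) • (1 : R) + (x + y * s) • w := by
    rw [hxy, add_mul, smul_mul_assoc, smul_mul_assoc, one_mul, hw]
    simp only [smul_add, smul_smul, add_smul]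
    abel
  have hnorm : Algebra.norm ℤ κ = x ^ 2 + s * x * y - t * y ^ 2 := by
    rw [Algebra.norm_eq_matrix_det b, Matrix.det_fin_two]
    simp only [Algebra.leftMulMatrix_eq_repr_mul]
    rw [hb0, hb1, mul_one, hκw, (hrep _ _).1, (hrep _ _).2]
    rw [hxy, (hrep _ _).1, (hrep _ _).2]
    ring
  have habs := Ideal.absNorm_span_singleton κ
  rw [hnorm] at habs
  have hcard : Nat.card (R ⧸ sp κ) = (x ^ 2 + s * x * y - t * y ^ 2).natAbs := habs
  have h4 : 0 ≤ x ^ 2 + s * x * y - t * y ^ 2 := by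
    have h0 : (0 : ℝ) ≤ Complex.normSq (κ : ℂ) := Complex.normSq_nonneg _
    rw [hn] at h0
    exact_mod_cast h0
  unfold nm
  rw [hcard, hn]
  have h5 : (((x ^ 2 + s * x * y - t * y ^ 2).natAbs : ℕ) : ℤ) = x ^ 2 + s * x * y - t * y ^ 2 := by
    omega
  have h6 := congrArg (fun z : ℤ => (z : ℝ)) h5
  simpa only [Int.cast_natCast] using h6

end

/-- BASIC -/
theorem h_basic : H_BASIC := by
  intro R ω h
  obtain ⟨i1, i2, i3, hnm, hsp⟩ := basics h
  have hpos : ∀ I : Ideal R, I ≠ ⊥ → 1 ≤ nm I := by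
    intro I hI
    rw [hnm]
    have h1 : Ideal.absNorm I ≠ 0 := fun h0 => hI (Ideal.absNorm_eq_zero_iff.1 h0)
    exact_mod_cast Nat.one_le_iff_ne_zero.2 h1
  have hmul : ∀ I J : Ideal R, nm (I * J) = nm I * nm J := by
    intro I J
    rw [hnm, hnm, hnm, map_mul]
    push_cast
    ring
  refine ⟨?_, ?_, hpos, hmul, hsp, ?_, ?_, exists_nat h, fin_units h⟩
  · intro I hI
    exact (Ideal.absNorm_ne_zero_iff I).1 (fun h0 => hI (Ideal.absNorm_eq_zero_iff.1 h0))
  · rw [hnm, Ideal.absNorm_bot, Nat.cast_zero]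
  · intro I J hI hd
    obtain ⟨L, rfl⟩ := hd
    have hL : L ≠ ⊥ := by
      rintro rfl
      exact hI (Ideal.mul_bot J)
    rw [hmul]
    have h1 := hpos L hL
    have h2 : 0 ≤ nm J := Nat.cast_nonneg _
    nlinarith
  · intro I
    rw [hnm]
    constructor
    · intro h1
      exact Ideal.absNorm_eq_one_iff.1 (by exact_mod_cast h1)
    · intro h1
      rw [Ideal.absNorm_eq_one_iff.2 h1, Nat.cast_one]

end Pool.Agent.W287.HK
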